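import Pool.Agent.H349Z.OCN.Embed

namespace Pool.Agent.Results.MP_dc39f7_co.AExponential

open Pool.Agent.H349Z.OCN

theorem result :
    (∀ p : Polynomial ℝ, ∃ k : ℕ, 2 ≤ k ∧ ∃ o : LinearOrder (SimpleGraph.pathGraph k).edgeSet,
      ∃ c : ℕ, orderChrom (SimpleGraph.pathGraph k) o = c ∧ p.eval (k : ℝ) < c) ∧
    (∀ m : ℕ, 1 ≤ m → ∃ o : LinearOrder (SimpleGraph.pathGraph (5 * m + 1)).edgeSet,
      ∃ c : ℕ, orderChrom (SimpleGraph.pathGraph (5 * m + 1)) o = c ∧ 2 ^ m < c) := by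
  refine ⟨fun p => ?_, fun m hm => ?_⟩
  · obtain ⟨m, hm, hp⟩ := poly_lt p
    obtain ⟨c, hc, he⟩ := expo m hm
    refine ⟨5 * m + 1, by omega, pathOrd _, c, he, hp.trans ?_⟩
    exact_mod_cast hc
  · obtain ⟨c, hc, he⟩ := expo m hm
    exact ⟨pathOrd _, c, he, hc⟩

end Pool.Agent.Results.MP_dc39f7_co.AExponential
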